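import Pool.Agent.Q40.BF.Colour

/-!
# The slab of width one: unknotted polygons in different ergodicity classes

There is an unknotted lattice polygon in the slab `0 ≤ Z ≤ 1` which can be joined with the unit
square by BFACF moves inside every slab of width at least two, but not inside the slab of width
one.
-/

namespace Pool.Agent.Results.MP_dd2c10_pr.UnknotSplits

open Pool.Agent.Q40.BF

/-- the unit square in the plane `Z = 0` with the corner at the origin -/
def unitSquare : Set (Sym2 V3) := squareSides (0, 0, 0) (1, 0, 0) (0, 1, 0)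

lemma unitSquare_eq : unitSquare = closedPath lQ := by
  rw [closedPath_Q]
  simp only [unitSquare, squareSides, EX, EY, Prod.mk_add_mk, zero_add, add_zero]
  ext e
  simp only [Set.mem_insert_iff, Set.mem_singleton_iff]
  tauto

theorem result : Polygon 1 unitSquare ∧ ∃ P : Set (Sym2 V3), Polygon 1 P ∧
    (∀ w : ℤ, 2 ≤ w → SameClass w P unitSquare) ∧ ¬ SameClass 1 P unitSquare := by
  have h2 : IsCycle 2 lP := cycP.mono (by norm_num)
  rw [unitSquare_eq]
  refine ⟨⟨_, by decide +kernel, rfl⟩, closedPath lP, ⟨_, cycP, rfl⟩, ?_, ?_⟩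
  · intro w hw
    exact (runs_sound opsP h2 runP).2.mono hw
  · intro h
    exact not_N_Q (h.keeps.1 N_P)

end Pool.Agent.Results.MP_dd2c10_pr.UnknotSplits
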